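import Mathlib
import Pool.Agent.N463.HW.Stm

/-!
# Project HW (MP_11bc5f_an): the Bargmann transform of the Gaussian (V0)
-/

set_option autoImplicit false

open MeasureTheory

namespace Pool.Agent.N665.HW

open Pool.Agent.N463.HW

lemma half_cpow : ((1 / 2 : ℝ) : ℂ) ^ (1 / 2 : ℂ) = ((1 / Real.sqrt 2 : ℝ) : ℂ) := by
  have h : ((1 / 2 : ℝ) : ℂ) ^ (1 / 2 : ℂ) = (((1 / 2 : ℝ) ^ (1 / 2 : ℝ) : ℝ) : ℂ) := by
    rw [Complex.ofReal_cpow (by norm_num)]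
    norm_num
  rw [h, ← Real.sqrt_eq_rpow, Real.sqrt_div (by norm_num), Real.sqrt_one]

lemma gauss (z : ℂ) : ∫ t : ℝ, Complex.exp (-(2 * Real.pi) * (t : ℂ) ^ 2 + 2 * Real.pi * z * t + 0) =
    ((1 / Real.sqrt 2 : ℝ) : ℂ) * Complex.exp (Real.pi * z ^ 2 / 2) := by
  have hpi : (Real.pi : ℂ) ≠ 0 := by exact_mod_cast Real.pi_ne_zero
  have hb : (-(2 * Real.pi : ℂ)).re < 0 := by
    have : (-(2 * Real.pi : ℂ)) = ((-(2 * Real.pi) : ℝ) : ℂ) := by push_cast; ring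
    rw [this, Complex.ofReal_re]
    linarith [Real.pi_pos]
  rw [integral_cexp_quadratic hb]
  have h1 : (Real.pi : ℂ) / -(-(2 * Real.pi)) = ((1 / 2 : ℝ) : ℂ) := by
    push_cast
    field_simp
  rw [h1, half_cpow]
  congr 2
  field_simp
  ring

/-- V0. -/
theorem t_V0 : S_V0 := by
  intro c₀ h z
  unfold bst
  have h1 : ∀ t : ℝ, (starRingEnd ℂ) (herm 0 t) *
      Complex.exp (-Real.pi * (t : ℂ) ^ 2 + 2 * Real.pi * t * z) =
      c₀ * Complex.exp (-(2 * Real.pi) * (t : ℂ) ^ 2 + 2 * Real.pi * z * t + 0) := by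
    intro t
    have h2 : (starRingEnd ℂ) (herm 0 t) = herm 0 t := by
      unfold herm
      exact Complex.conj_ofReal _
    rw [h2, h t, mul_assoc, ← Complex.exp_add]
    congr 2
    ring
  simp_rw [h1]
  rw [integral_const_mul, gauss]
  have h3 : Complex.exp (-Real.pi * z ^ 2 / 2) * Complex.exp (Real.pi * z ^ 2 / 2) = 1 := by
    rw [← Complex.exp_add]
    rw [show -Real.pi * z ^ 2 / 2 + Real.pi * z ^ 2 / 2 = (0 : ℂ) by ring, Complex.exp_zero]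
  calc Complex.exp (-Real.pi * z ^ 2 / 2) *
        ((c₀ : ℂ) * (((1 / Real.sqrt 2 : ℝ) : ℂ) * Complex.exp (Real.pi * z ^ 2 / 2)))
      = (c₀ : ℂ) * ((1 / Real.sqrt 2 : ℝ) : ℂ) *
        (Complex.exp (-Real.pi * z ^ 2 / 2) * Complex.exp (Real.pi * z ^ 2 / 2)) := by ring
    _ = ((c₀ / Real.sqrt 2 : ℝ) : ℂ) := by
        rw [h3, mul_one, ← Complex.ofReal_mul]
        congr 1
        ring

end Pool.Agent.N665.HW
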